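import Mathlib

/-!
A twisted form of the theorem of Olson: if `n > (dim Y - r) (p - 1)`, `z e ∈ Y` and `X e ≤ Y` has
dimension at least `r`, then some nonempty subsum of the `z e` lies in the sum of the same `X e`.
-/

namespace Pool.Agent.MP_d99b12_co.H81

open Module Finset Submodule

section Abstract

variable {E A : Type*} [Field E] [CommRing A] [Algebra E A]

/-- a common complement, generated as an ideal by few elements -/
lemma common_ideal [Infinite E] [FiniteDimensional E A] {p : ℕ} (hp : 1 ≤ p) {ι : Type*} [Finite ι]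
    (M : Submodule E A) (hM : ∀ x ∈ M, x ^ p = 0) (c : ℕ) :
    ∀ X : ι → Submodule E A, (∀ e, X e ≤ M) → (∀ e, finrank E M ≤ finrank E (X e) + c) →
      ∃ b : Ideal A, b ^ (c * (p - 1) + 1) = 0 ∧ ∀ e, M ≤ X e ⊔ b.restrictScalars E := by
  induction c with
  | zero =>
    intro X hle hc
    refine ⟨0, by simp, fun e => ?_⟩
    have := Submodule.eq_of_le_of_finrank_le (hle e) (by simpa using hc e)
    exact this.ge.trans le_sup_left
  | succ c ih =>
    intro X hle hc
    obtain ⟨x, hx⟩ := Submodule.exists_forall_notMem_of_forall_ne_top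
      (ι := {e // X e ≠ M}) (fun e => (X e.1).comap M.subtype) (fun e h => e.2 (by
        rw [Submodule.comap_subtype_eq_top] at h
        exact le_antisymm (hle _) h))
    obtain ⟨b, hb, hX⟩ := ih (fun e => X e ⊔ span E {(x : A)})
      (fun e => sup_le (hle e) ((span_singleton_le_iff_mem _ _).2 x.2)) (fun e => by
        by_cases h : X e = M
        · have : finrank E M ≤ finrank E ↥(X e ⊔ span E {(x : A)}) :=
            Submodule.finrank_mono (h.ge.trans le_sup_left)
          omega
        · have h1 : X e < X e ⊔ span E {(x : A)} := by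
            refine lt_of_le_of_ne le_sup_left fun h2 => hx ⟨e, h⟩ ?_
            have : (x : A) ∈ X e ⊔ span E {(x : A)} := mem_sup_right (mem_span_singleton_self _)
            rw [← h2] at this
            exact this
          have := Submodule.finrank_lt_finrank_of_lt h1
          have := hc e
          omega)
    refine ⟨b + Ideal.span {(x : A)}, ?_, fun e => (hX e).trans ?_⟩
    · refine (Commute.all _ _).add_pow_eq_zero_of_add_le_succ_of_pow_eq_zero hb (n := p) ?_ ?_
      · rw [Ideal.span_singleton_pow, hM _ x.2]; simp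
      · obtain ⟨q, rfl⟩ : ∃ q, p = q + 1 := ⟨p - 1, by omega⟩
        simp only [Nat.add_sub_cancel]
        nlinarith
    · refine sup_le (sup_le le_sup_left (le_sup_of_le_right ?_)) (le_sup_of_le_right ?_)
      · rw [span_singleton_le_iff_mem]
        exact Ideal.mem_sup_right (Ideal.mem_span_singleton_self _)
      · intro y hy
        exact Ideal.mem_sup_left hy

/-- nilpotent Nakayama -/
lemma nak (M N : Submodule E A) (b : Ideal A) (S : Submodule E A) (hS : ∀ j, N ^ (j + 1) ≤ S)
    (hN : N ≤ M) (hnil : IsNilpotent M) (h : M ≤ (N ⊔ M * M) ⊔ b.restrictScalars E) :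
    M ≤ S ⊔ b.restrictScalars E := by
  set B := b.restrictScalars E with hB
  have hBl : ∀ P : Submodule E A, B * P ≤ B := fun P =>
    Submodule.mul_le.2 fun x hx y _ => b.mul_mem_right y hx
  have hBr : ∀ P : Submodule E A, P * B ≤ B := fun P => by rw [mul_comm]; exact hBl P
  have hpow : ∀ j, N ^ j ≤ M ^ j := fun j => pow_le_pow_left' hN j
  have step : ∀ j, M ^ (j + 1) ≤ (N ^ (j + 1) ⊔ M ^ (j + 2)) ⊔ B := by
    intro j
    induction j with
    | zero => simpa [pow_two] using h
    | succ j ih =>
      calc M ^ (j + 1 + 1) = M ^ (j + 1) * M := pow_succ _ _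
        _ ≤ ((N ^ (j + 1) ⊔ M ^ (j + 2)) ⊔ B) * M := mul_le_mul_left ih _
        _ = (N ^ (j + 1) * M ⊔ M ^ (j + 2) * M) ⊔ B * M := by
            rw [Submodule.sup_mul, Submodule.sup_mul]
        _ ≤ _ := by
            refine sup_le (sup_le ?_ ?_) ((hBl _).trans le_sup_right)
            · refine (mul_le_mul_right h _).trans ?_
              rw [Submodule.mul_sup, Submodule.mul_sup]
              refine sup_le (sup_le ?_ ?_) ((hBr _).trans le_sup_right)
              · rw [← pow_succ]; exact le_sup_of_le_left le_sup_left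
              · refine le_sup_of_le_left (le_sup_of_le_right ?_)
                refine (mul_le_mul_left (hpow _) _).trans (le_of_eq ?_)
                ring
            · rw [← pow_succ]; exact le_sup_of_le_left le_sup_right
  have all : ∀ j, M ≤ (S ⊔ B) ⊔ M ^ (j + 1) := by
    intro j
    induction j with
    | zero => simp
    | succ j ih =>
      refine ih.trans (sup_le le_sup_left ((step j).trans (sup_le (sup_le ?_ le_sup_right) ?_)))
      · exact le_sup_of_le_left (le_sup_of_le_left (hS j))
      · exact le_sup_of_le_left le_sup_right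
  obtain ⟨n, hn⟩ := hnil
  have := all n
  rwa [pow_succ, hn, zero_mul, Submodule.zero_eq_bot, sup_bot_eq] at this

end Abstract

/-- GO for the whole space -/
lemma go_top {p : ℕ} [Fact p.Prime] {V : Type*} [AddCommGroup V] [Module (ZMod p) V]
    [Module.Finite (ZMod p) V] {ι : Type*} (s : Finset ι) (z : ι → V)
    (X : ι → Submodule (ZMod p) V) (c : ℕ)
    (hX : ∀ e ∈ s, finrank (ZMod p) V ≤ finrank (ZMod p) (X e) + c) (hn : c * (p - 1) < s.card) :
    ∃ I ⊆ s, I.Nonempty ∧ ∑ e ∈ I, z e ∈ ⨆ e ∈ I, X e := by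
  classical
  have hp : p.Prime := Fact.out
  by_contra hcon
  push Not at hcon
  have : Finite V := Module.finite_of_finite (ZMod p)
  let E := AlgebraicClosure (ZMod p)
  let A := AddMonoidAlgebra E V
  let γ : V → A := fun v => AddMonoidAlgebra.single v 1
  have γ0 : γ 0 = 1 := rfl
  have γa : ∀ v w, γ (v + w) = γ v * γ w := fun v w => by
    simp only [γ]
    rw [AddMonoidAlgebra.single_mul_single, one_mul]
  have γn : ∀ (n : ℕ) v, γ (n • v) = γ v ^ n := fun n v => by
    induction n with
    | zero => simp [γ0]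
    | succ n ih => rw [succ_nsmul, γa, ih, pow_succ]
  have : CharP A p := charP_of_injective_algebraMap (algebraMap E A).injective p
  have γp : ∀ v, (γ v - 1) ^ p = 0 := fun v => by
    rw [sub_pow_char, ← γn, one_pow, ← Nat.cast_smul_eq_nsmul (ZMod p), ZMod.natCast_self,
      zero_smul, γ0, sub_self]
  let M : Submodule E A := span E (Set.range fun v => γ v - 1)
  have hMγ : ∀ v, γ v - 1 ∈ M := fun v => subset_span ⟨v, rfl⟩
  have hMp : ∀ x ∈ M, x ^ p = 0 := by
    intro x hx
    induction hx using span_induction with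
    | mem x h => obtain ⟨v, rfl⟩ := h; exact γp v
    | zero => exact zero_pow hp.ne_zero
    | add x y _ _ h1 h2 => rw [add_pow_char, h1, h2, add_zero]
    | smul a x _ h => rw [smul_pow, h, smul_zero]
  have hnil : IsNilpotent M := by
    have : Fintype V := Fintype.ofFinite V
    have : M = ∑ v : V, span E {γ v - 1} := by
      refine le_antisymm (span_le.2 ?_) (Finset.sum_induction _ (· ≤ M)
        (fun a b ha hb => sup_le ha hb) bot_le fun v _ => (span_singleton_le_iff_mem _ _).2 (hMγ v))
      rintro _ ⟨v, rfl⟩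
      exact Finset.single_le_sum (f := fun v => span E {γ v - 1}) (fun _ _ => bot_le) (mem_univ v)
        (mem_span_singleton_self _)
    rw [this]
    refine Commute.isNilpotent_sum (fun v _ => ⟨p, ?_⟩) fun _ _ _ _ => Commute.all _ _
    rw [Submodule.span_pow, Set.singleton_pow, γp]; simp
  have hMM : M * M ≤ M := by
    rw [Submodule.span_mul_span, span_le]
    rintro _ ⟨_, ⟨v, rfl⟩, _, ⟨w, rfl⟩, rfl⟩
    have : (γ v - 1) * (γ w - 1) = (γ (v + w) - 1) - (γ v - 1) - (γ w - 1) := by rw [γa]; ring
    change (γ v - 1) * (γ w - 1) ∈ M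
    rw [this]
    exact sub_mem (sub_mem (hMγ _) (hMγ _)) (hMγ _)
  let T : Set V → Submodule E A := fun Z => span E (γ '' Z)
  let N : ι → Submodule E A := fun e => span E ((fun v => γ v - 1) '' (X e : Set V))
  have hNM : ∀ e, N e ≤ M := fun e => span_mono (Set.image_subset_range _ _)
  have hTT : ∀ Z Z' Z'' : Set V, (∀ v ∈ Z, ∀ w ∈ Z', v + w ∈ Z'') → T Z * T Z' ≤ T Z'' := by
    intro Z Z' Z'' h
    rw [Submodule.span_mul_span, span_le]
    rintro _ ⟨_, ⟨v, hv, rfl⟩, _, ⟨w, hw, rfl⟩, rfl⟩
    exact subset_span ⟨v + w, h v hv w hw, γa v w⟩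
  have hNT : ∀ e, N e ≤ T (X e) := fun e => by
    rw [span_le]
    rintro _ ⟨v, hv, rfl⟩
    exact sub_mem (subset_span ⟨v, hv, rfl⟩) (subset_span ⟨0, zero_mem _, γ0⟩)
  have hNpow : ∀ e j, N e ^ (j + 1) ≤ T (X e) := fun e j => by
    induction j with
    | zero => simpa using hNT e
    | succ j ih =>
      rw [pow_succ]
      exact (mul_le_mul' ih (hNT e)).trans (hTT _ _ _ fun v hv w hw => add_mem hv hw)
  have hcod : ∀ e ∈ s, finrank E M ≤ finrank E ↥(N e ⊔ M * M) + c := by
    intro e he
    obtain ⟨C, hC⟩ := (X e).exists_isCompl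
    have hCc : finrank (ZMod p) C ≤ c := by
      have := Submodule.finrank_add_eq_of_isCompl hC
      have := hX e he
      omega
    let β := Module.finBasis (ZMod p) C
    let U : Submodule E A := span E (Set.range fun j => γ (β j) - 1)
    have hU : finrank E U ≤ c := by
      refine (finrank_range_le_card _).trans ?_
      simpa using hCc
    let K : AddSubmonoid V :=
      { carrier := {v | γ v - 1 ∈ (N e ⊔ M * M) ⊔ U}
        zero_mem' := by simp [γ0]
        add_mem' := by
          intro v w hv hw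
          have : γ (v + w) - 1 = (γ v - 1) + (γ w - 1) + (γ v - 1) * (γ w - 1) := by
            rw [γa]; ring
          rw [Set.mem_ofPred_eq, this]
          exact add_mem (add_mem hv hw)
            (mem_sup_left (mem_sup_right (mul_mem_mul (hMγ _) (hMγ _)))) }
    have hK : ∀ v, v ∈ K := by
      intro v
      obtain ⟨x, hx, y, hy, rfl⟩ := Submodule.mem_sup.1 (hC.sup_eq_top ▸ mem_top (x := v))
      refine add_mem (mem_sup_left (mem_sup_left (subset_span ⟨x, hx, rfl⟩))) ?_
      have := congrArg Subtype.val (β.sum_repr ⟨y, hy⟩)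
      simp only [AddSubmonoidClass.coe_finsetSum, SetLike.val_smul] at this
      rw [← this]
      refine sum_mem fun j _ => ?_
      rw [← ZMod.natCast_zmod_val (β.repr ⟨y, hy⟩ j), Nat.cast_smul_eq_nsmul]
      exact nsmul_mem (show (β j : V) ∈ K from mem_sup_right (subset_span ⟨j, rfl⟩)) _
    have h1 : M ≤ (N e ⊔ M * M) ⊔ U := by
      rw [span_le]
      rintro _ ⟨v, rfl⟩
      exact hK v
    have h2 := Submodule.finrank_mono h1
    have h3 := Submodule.finrank_add_le_finrank_add_finrank (N e ⊔ M * M) U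
    omega
  obtain ⟨b, hb, hbX⟩ := common_ideal (E := E) (ι := s) hp.one_lt.le M hMp c
    (fun e => N e.1 ⊔ M * M) (fun e => sup_le (hNM _) hMM) (fun e => hcod e.1 e.2)
  have hu : ∀ e ∈ s, ∃ a ∈ T {v | v - z e ∈ X e}, 1 - a ∈ b := by
    intro e he
    have h1 := nak M (N e) b (T (X e)) (hNpow e) (hNM e) hnil (hbX ⟨e, he⟩) (hMγ (-z e))
    obtain ⟨u, hu, w, hw, h2⟩ := Submodule.mem_sup.1 h1
    refine ⟨γ (z e) * (u + 1), ?_, ?_⟩
    · refine hTT {z e} (X e) _ ?_ (mul_mem_mul (subset_span ⟨_, rfl, rfl⟩)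
        (add_mem hu (subset_span ⟨0, zero_mem _, γ0⟩)))
      rintro v rfl w hw
      simpa using hw
    · have h3 : γ (z e) * γ (-z e) = 1 := by rw [← γa, add_neg_cancel, γ0]
      have : 1 - γ (z e) * (u + 1) = γ (z e) * w := by
        have h4 : u + 1 = γ (-z e) - w := by linear_combination h2
        rw [h4, mul_sub, h3]; ring
      rw [this]
      exact b.mul_mem_left _ hw
  choose! a ha hab using hu
  have hzero : ∏ e ∈ s, (1 - a e) = 0 := by
    have h1 : ∏ e ∈ s, (1 - a e) ∈ b ^ s.card := by
      rw [← Finset.prod_const]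
      exact Ideal.prod_mem_prod hab
    rwa [pow_eq_zero_of_le (by omega) hb, Ideal.zero_eq_bot, Ideal.mem_bot] at h1
  have hexp : ∀ t ⊆ s, ∏ e ∈ t, (1 - a e) - 1 ∈
      T {v | ∃ I ⊆ t, I.Nonempty ∧ v - ∑ e ∈ I, z e ∈ ⨆ e ∈ I, X e} := by
    intro t
    induction t using Finset.induction with
    | empty => simp
    | insert e t het ih =>
      intro hts
      have ih' := ih ((subset_insert _ _).trans hts)
      have hae := ha e (hts (mem_insert_self _ _))
      have : ∏ e ∈ insert e t, (1 - a e) - 1 =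
          (∏ e ∈ t, (1 - a e) - 1) - a e - a e * (∏ e ∈ t, (1 - a e) - 1) := by
        rw [prod_insert het]; ring
      rw [this]
      refine sub_mem (sub_mem (span_mono (Set.image_mono ?_) ih') (span_mono (Set.image_mono ?_) hae))
        (hTT _ _ _ ?_ (mul_mem_mul hae ih'))
      · rintro v ⟨I, hI, h⟩
        exact ⟨I, hI.trans (subset_insert _ _), h⟩
      · intro v hv
        exact ⟨{e}, by simp, by simp, by simpa using hv⟩
      · rintro v hv w ⟨I, hI, -, h⟩
        have heI : e ∉ I := fun h => het (hI h)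
        refine ⟨insert e I, insert_subset_insert _ hI, insert_nonempty _ _, ?_⟩
        rw [sum_insert heI, Finset.iSup_insert]
        have : v + w - (z e + ∑ e ∈ I, z e) = (v - z e) + (w - ∑ e ∈ I, z e) := by abel
        rw [this]
        exact add_mem (mem_sup_left hv) (mem_sup_right h)
  have hcoef : ∀ Z : Set V, 0 ∉ Z → ∀ x ∈ T Z, AddMonoidAlgebra.coeff x 0 = 0 := by
    intro Z hZ x hx
    induction hx using span_induction with
    | mem x h =>
      obtain ⟨v, hv, rfl⟩ := h
      have : v ≠ 0 := fun h => hZ (h ▸ hv)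
      simp [γ, this]
    | zero => rfl
    | add x y _ _ h1 h2 => rw [AddMonoidAlgebra.coeff_add, Finsupp.add_apply, h1, h2, add_zero]
    | smul a x _ h => rw [AddMonoidAlgebra.coeff_smul, Finsupp.smul_apply, h, smul_zero]
  have h1 := hcoef _ (by
    rintro ⟨I, hI, hne, h⟩
    refine hcon I hI hne ?_
    simpa using neg_mem h) _ (neg_mem (hexp s subset_rfl))
  rw [hzero, zero_sub, neg_neg, ← γ0] at h1
  simp [γ] at h1

/-- GO: the twisted theorem of Olson inside a subspace `Y` -/
theorem go {p : ℕ} [Fact p.Prime] {V : Type*} [AddCommGroup V] [Module (ZMod p) V]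
    [Module.Finite (ZMod p) V] {ι : Type*} (s : Finset ι) (z : ι → V)
    (X : ι → Submodule (ZMod p) V) (Y : Submodule (ZMod p) V) (r : ℕ) (hz : ∀ e ∈ s, z e ∈ Y)
    (hXY : ∀ e ∈ s, X e ≤ Y) (hX : ∀ e ∈ s, r ≤ finrank (ZMod p) (X e))
    (hn : (finrank (ZMod p) Y - r) * (p - 1) < s.card) :
    ∃ I ⊆ s, I.Nonempty ∧ ∑ e ∈ I, z e ∈ ⨆ e ∈ I, X e := by
  classical
  obtain ⟨I, hI, hne, h⟩ := go_top (p := p) (V := Y) s
    (fun e => if h : z e ∈ Y then ⟨z e, h⟩ else 0) (fun e => (X e).comap Y.subtype)
    (finrank (ZMod p) Y - r) (fun e he => by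
      have := (Submodule.comapSubtypeEquivOfLe (hXY e he)).finrank_eq
      have := hX e he
      omega) hn
  refine ⟨I, hI, hne, ?_⟩
  have h1 := Submodule.mem_map_of_mem (f := Y.subtype) h
  rw [map_sum, Finset.sum_congr rfl (g := z) fun e he => by simp [hz e (hI he)]] at h1
  simp only [Submodule.map_iSup] at h1
  exact (iSup₂_mono fun e _ => Submodule.map_comap_le _ _ : _ ≤ ⨆ e ∈ I, X e) h1

end Pool.Agent.MP_d99b12_co.H81
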