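import Mathlib

/-!
The theorem of Rado on independent transversals, and the covering lemma.
-/

namespace Pool.Agent.MP_d99b12_co.H81

open Module Finset Submodule

variable {K V ι : Type*} [Field K] [AddCommGroup V] [Module K V] [FiniteDimensional K V]

open Classical in
lemma rado (Dir : ι → Set V) (n : ℕ) : ∀ (S : Finset ι) (X G : Submodule K V), X ≤ G →
    finrank K G ≤ finrank K X + n → (∀ e ∈ S, Dir e ⊆ G) →
    (∀ Y, X ≤ Y → Y ≤ G → finrank K G ≤ finrank K Y + (S.filter fun e => ¬ Dir e ⊆ Y).card) →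
    ∃ y : ι → V, (∀ e ∈ S, y e = 0 ∨ y e ∈ Dir e) ∧ G ≤ X ⊔ span K (y '' S) := by
  induction n with
  | zero =>
    intro S X G hXG hn _ _
    have := Submodule.eq_of_le_of_finrank_le hXG (by simpa using hn)
    exact ⟨0, fun _ _ => Or.inl rfl, this.ge.trans le_sup_left⟩
  | succ n ih =>
    intro S X G hXG hn hD hR
    by_cases hXG' : X = G
    · exact ⟨0, fun _ _ => Or.inl rfl, hXG'.ge.trans le_sup_left⟩
    by_cases ht : ∃ Y, X < Y ∧ Y < G ∧
        (S.filter fun e => ¬ Dir e ⊆ Y).card + finrank K Y ≤ finrank K G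
    · obtain ⟨Y, h1, h2, h3⟩ := ht
      have f1 := Submodule.finrank_lt_finrank_of_lt h1
      have f2 := Submodule.finrank_lt_finrank_of_lt h2
      obtain ⟨y₁, a1, a2⟩ := ih (S.filter fun e => ¬ Dir e ⊆ Y) Y G h2.le (by omega)
        (fun e he => hD e (mem_filter.1 he).1) (fun Y' b1 b2 => by
          refine (hR Y' (h1.le.trans b1) b2).trans (Nat.add_le_add_left (card_le_card ?_) _)
          intro e he
          rw [mem_filter] at he
          exact mem_filter.2 ⟨mem_filter.2 ⟨he.1, fun h => he.2 (h.trans b1)⟩, he.2⟩)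
      obtain ⟨y₂, c1, c2⟩ := ih (S.filter fun e => Dir e ⊆ Y) X Y h1.le (by omega)
        (fun e he => (mem_filter.1 he).2) (fun Y' b1 b2 => by
          have h4 := hR Y' b1 (b2.trans h2.le)
          have h5 : (S.filter fun e => ¬ Dir e ⊆ Y').card ≤
              (S.filter fun e => ¬ Dir e ⊆ Y).card +
              ((S.filter fun e => Dir e ⊆ Y).filter fun e => ¬ Dir e ⊆ Y').card := by
            refine le_trans (card_le_card ?_) (card_union_le _ _)
            intro e he
            rw [mem_filter] at he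
            by_cases h : Dir e ⊆ Y
            · exact mem_union_right _ (mem_filter.2 ⟨mem_filter.2 ⟨he.1, h⟩, he.2⟩)
            · exact mem_union_left _ (mem_filter.2 ⟨he.1, h⟩)
          omega)
      refine ⟨fun e => if Dir e ⊆ Y then y₂ e else y₁ e, fun e he => ?_, ?_⟩
      · by_cases h : Dir e ⊆ Y
        · simpa [h] using c1 e (mem_filter.2 ⟨he, h⟩)
        · simpa [h] using a1 e (mem_filter.2 ⟨he, h⟩)
      · refine a2.trans (sup_le (c2.trans (sup_le_sup_left (span_mono ?_) _))
          (le_sup_of_le_right (span_mono ?_)))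
        · rintro _ ⟨e, he, rfl⟩
          have he := mem_filter.1 (mem_coe.1 he)
          exact ⟨e, he.1, by simp [he.2]⟩
        · rintro _ ⟨e, he, rfl⟩
          have he := mem_filter.1 (mem_coe.1 he)
          exact ⟨e, he.1, by simp [he.2]⟩
    · push Not at ht
      have f0 := Submodule.finrank_lt_finrank_of_lt (lt_of_le_of_ne hXG hXG')
      have h0 := hR X le_rfl hXG
      obtain ⟨e, he⟩ : (S.filter fun e => ¬ Dir e ⊆ X).Nonempty := card_pos.1 (by omega)
      rw [mem_filter, Set.not_subset] at he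
      obtain ⟨heS, y₀, hy₀, hy₀X⟩ := he
      have h1 : X < X ⊔ span K {y₀} := lt_of_le_of_ne le_sup_left fun h =>
        hy₀X (by rw [h]; exact mem_sup_right (mem_span_singleton_self _))
      have f1 := Submodule.finrank_lt_finrank_of_lt h1
      have h2 : X ⊔ span K {y₀} ≤ G :=
        sup_le hXG ((span_singleton_le_iff_mem _ _).2 (hD e heS hy₀))
      obtain ⟨y, a1, a2⟩ := ih (S.erase e) (X ⊔ span K {y₀}) G h2 (by omega)
        (fun f hf => hD f (mem_of_mem_erase hf)) (fun Y b1 b2 => by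
          rcases b2.eq_or_lt with rfl | b2
          · omega
          have h3 := ht Y (h1.trans_le b1) b2
          have h4 : (S.filter fun e => ¬ Dir e ⊆ Y).card ≤
              ((S.erase e).filter fun e => ¬ Dir e ⊆ Y).card + 1 := by
            rw [filter_erase]
            exact (Nat.sub_le_iff_le_add.1 (pred_card_le_card_erase))
          omega)
      refine ⟨Function.update y e y₀, fun f hf => ?_, a2.trans (sup_le (sup_le le_sup_left ?_) ?_)⟩
      · by_cases h : f = e
        · subst h; simpa using Or.inr hy₀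
        · simpa [h] using a1 f (mem_erase.2 ⟨h, hf⟩)
      · exact le_sup_of_le_right (span_mono (Set.singleton_subset_iff.2 ⟨e, heS, by simp⟩))
      · refine le_sup_of_le_right (span_mono ?_)
        rintro _ ⟨f, hf, rfl⟩
        have hf := mem_erase.1 (mem_coe.1 hf)
        exact ⟨f, hf.2, by simp [hf.1]⟩

/-- COV: each element contributes one member of `Ct e`; full affine lines in `Ct e` are moves -/
theorem cov (Ct : ι → Set V) (S : Finset ι) (X G : Submodule K V) (hXG : X ≤ G)
    (h0 : ∀ e ∈ S, 0 ∈ Ct e)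
    (hR : ∀ Y, X ≤ Y → Y ≤ G → ∃ T ⊆ S, finrank K G ≤ finrank K Y + T.card ∧
      ∀ e ∈ T, ∃ c ∈ G, ∃ y ∈ G, y ∉ Y ∧ ∀ t : K, c + t • y ∈ Ct e)
    {γ : V} (hγ : γ ∈ G) : ∃ w : ι → V, (∀ e ∈ S, w e ∈ Ct e) ∧ γ - ∑ e ∈ S, w e ∈ X := by
  classical
  obtain ⟨y, h1, h2⟩ := rado (K := K)
    (fun e => {y | y ∈ G ∧ ∃ c ∈ G, ∀ t : K, c + t • y ∈ Ct e}) (finrank K G) S X G hXG (by omega)
    (fun e _ y hy => hy.1) (fun Y b1 b2 => by
      obtain ⟨T, hT, c1, c2⟩ := hR Y b1 b2
      refine c1.trans (Nat.add_le_add_left (card_le_card fun e he => ?_) _)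
      obtain ⟨c, hc, y, hy, hyY, h⟩ := c2 e he
      exact mem_filter.2 ⟨hT he, fun h' => hyY (h' ⟨hy, c, hc, h⟩)⟩)
  have h3 : ∀ e ∈ S, ∃ c ∈ G, ∀ t : K, c + t • y e ∈ Ct e := fun e he => by
    rcases h1 e he with h | h
    · exact ⟨0, zero_mem _, fun t => by simpa [h] using h0 e he⟩
    · exact h.2
  choose! c hc hct using h3
  obtain ⟨x, hx, y', hy', h4⟩ := Submodule.mem_sup.1
    (h2 (sub_mem hγ (sum_mem fun e he => hc e he) : γ - ∑ e ∈ S, c e ∈ G))
  obtain ⟨t, rfl⟩ := (Submodule.mem_span_image_finset_iff_exists_fun' K).1 hy'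
  refine ⟨fun e => c e + t e • y e, fun e he => hct e he _, ?_⟩
  rw [sum_add_distrib, ← sub_sub, ← h4, add_sub_cancel_right]
  exact hx

end Pool.Agent.MP_d99b12_co.H81
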