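import Pool.Agent.MP_d99b12_co.H81.RIG
import Pool.Agent.MP_d99b12_co.H81.COV

/-!
Moves, the greedy choice of anchors and the final assembly.
-/

set_option linter.unusedSectionVars false

namespace Pool.Agent.MP_d99b12_co.H81

open Module Finset

variable {F O ι : Type*} [Field F] [Fintype O] [DecidableEq O]
variable {p : ℕ} [Fact p.Prime] [Algebra (ZMod p) F]

/-- `Sol` with all values in `S` -/
def SolS (S : Submodule (ZMod p) F) (O' An : Finset O) (E : Finset ι) (a : ι → O → F)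
    (z : ι → F) (X : ι → Submodule (ZMod p) F) : Prop :=
  ∃ v : ι → F, (∀ e, v e ∈ S) ∧ (∀ e, e ∉ E → v e = 0) ∧ v ≠ 0 ∧ Pin O' An a v ∧
    ∃ x : ι → F, (∀ e, x e ∈ X e) ∧ ∑ e ∈ E, v e * (z e + x e) = 0

lemma SolS.sol {S : Submodule (ZMod p) F} {O' An : Finset O} {E : Finset ι} {a : ι → O → F}
    {z : ι → F} {X : ι → Submodule (ZMod p) F} (h : SolS S O' An E a z X) : Sol O' An E a z X := by
  obtain ⟨v, -, h⟩ := h
  exact ⟨v, h⟩

lemma SolS.lift {S : Submodule (ZMod p) F} {O' O'' An An' : Finset O} {E E' : Finset ι}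
    {a : ι → O → F} {z : ι → F}
    {X : ι → Submodule (ZMod p) F} (h : SolS S O'' An' E' a z X) (hE : E' ⊆ E)
    (hP : ∀ v : ι → F, (∀ e, e ∉ E' → v e = 0) → Pin O'' An' a v → Pin O' An a v) :
    SolS S O' An E a z X := by
  obtain ⟨v, h0, h1, h2, h3, x, h4, h5⟩ := h
  refine ⟨v, h0, fun e he => h1 e fun h' => he (hE h'), h2, hP v h1 h3, x, h4, ?_⟩
  rw [← h5]
  exact (sum_subset hE fun e _ he => by rw [h1 e he, zero_mul]).symm

/-- all differences lie in `S` -/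
def Dif (S : Submodule (ZMod p) F) (O' : Finset O) (b : O → F) : Prop :=
  ∀ i ∈ O', ∀ i' ∈ O', b i - b i' ∈ S

/-- a scaled copy of a subspace -/
def sc (s : F) (X : Submodule (ZMod p) F) : Submodule (ZMod p) F :=
  X.map (LinearMap.mulLeft (ZMod p) s)

lemma mem_sc {s w : F} {X : Submodule (ZMod p) F} : w ∈ sc s X ↔ ∃ x ∈ X, s * x = w := by
  simp [sc]

lemma finrank_sc {s : F} (hs : s ≠ 0) (X : Submodule (ZMod p) F) :
    finrank (ZMod p) (sc s X) = finrank (ZMod p) X :=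
  (Submodule.equivMapOfInjective _ (mul_right_injective₀ hs) X).finrank_eq.symm

lemma In.sc_le {O' : Finset O} {b : O → F} {z : F} {X Y : Submodule (ZMod p) F}
    (h : In O' b z X Y) {i l : O} (hi : i ∈ O') (hl : l ∈ O') : sc (b i - b l) X ≤ Y := by
  intro w hw
  obtain ⟨x, hx, rfl⟩ := mem_sc.1 hw
  exact (h i hi l hl).2 x hx

lemma neg_one_ne_one_zmod (hp : p ≠ 2) : (-1 : ZMod p) ≠ 1 := fun h =>
  two_ne_zmod hp (by linear_combination -h)

lemma Cap.zero (O' : Finset O) (i₁ i₂ i₃ : O) (b : O → F) : Cap p O' i₁ i₂ i₃ b 0 :=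
  ⟨0, NS.zero _, ⟨i₁, fun _ _ _ => Or.inl rfl⟩, by simp⟩

/-- a multiple of a root whose first coefficient is allowed -/
lemma Cap.root {O' : Finset O} {i₁ i₂ i₃ i l : O} (hi : i ∈ O') (hl : l ∈ O') (hil : i ≠ l)
    {c : F} (hc : InV p i₁ i₂ i₃ i c) (b : O → F) : Cap p O' i₁ i₂ i₃ b (c * (b i - b l)) := by
  refine ⟨c • rt F i l, (NS.root hi hl).smul c, ⟨l, fun n _ hn => ?_⟩, by simp [rt_dot]⟩
  by_cases h : n = i
  · subst h; simpa [rt_left hil] using hc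
  · left; simp [rt_other h hn]

lemma moves (hp : p ≠ 2) {O' : Finset O} {i₁ i₂ i₃ : O} (m₁ : i₁ ∈ O') (m₂ : i₂ ∈ O')
    (h12 : i₁ ≠ i₂) {b : O → F} {z : F} {S X G Y : Submodule (ZMod p) F} (hS : Dif S O' b)
    (hG : In O' b z X G) (hY : ¬ In O' b z X Y) :
    ∃ c ∈ G, ∃ y ∈ G, y ∉ Y ∧ ∀ t : ZMod p, c + t • y ∈
      {w | ∃ c' ∈ S, ∃ x ∈ X, Cap p O' i₁ i₂ i₃ b c' ∧ w = c' * (z + x)} := by
  have hm1 : ∀ i, i = i₁ ∨ i = i₂ → InV p i₁ i₂ i₃ i (-1 : F) := fun i hi =>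
    Or.inr (Or.inl ⟨hi, -1, neg_one_ne_one_zmod hp, by simp⟩)
  obtain ⟨i, hi, h⟩ : ∃ i ∈ O', (b i₁ - b i) * z ∉ Y ∨ ∃ x ∈ X, (b i₁ - b i) * x ∉ Y := by
    by_contra hcon
    push Not at hcon
    refine hY fun i hi i' hi' => ⟨?_, fun x hx => ?_⟩
    · convert sub_mem (hcon i' hi').1 (hcon i hi).1 using 1; ring
    · convert sub_mem ((hcon i' hi').2 x hx) ((hcon i hi).2 x hx) using 1; ring
  have hi1 : i₁ ≠ i := by
    rintro rfl
    simp at h
  rcases h with h | ⟨x, hx, h⟩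
  · refine ⟨(b i - b i₂) * z, (hG _ hi _ m₂).1, _, (hG _ m₁ _ hi).1, h, fun t => ?_⟩
    refine ⟨t • (b i₁ - b i) + (b i - b i₂),
      add_mem (S.smul_mem _ (hS _ m₁ _ hi)) (hS _ hi _ m₂), 0, zero_mem _, ?_, ?_⟩
    · by_cases ht : t = 1
      · have := Cap.root (p := p) (i₃ := i₃) m₂ m₁ h12.symm (hm1 i₂ (Or.inr rfl)) b
        convert this using 1
        rw [ht, one_smul]; ring
      · refine ⟨algebraMap (ZMod p) F t • rt F i₁ i + rt F i i₂,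
          ((NS.root m₁ hi).smul _).add (NS.root hi m₂), ⟨i, fun n _ hn => ?_⟩, ?_⟩
        · by_cases c1 : n = i₁
          · subst c1
            exact Or.inr (Or.inl ⟨Or.inl rfl, t, ht, by
              simp [rt_left hi1, rt_other hi1 h12, -algebraMap_smul]⟩)
          by_cases c2 : n = i₂
          · subst c2
            convert hm1 n (Or.inr rfl) using 1
            simp [rt_other c1 hn, rt_right (Ne.symm hn)]
          · left; simp [rt_other c1 hn, rt_other hn c2]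
        · rw [add_dotProduct, smul_dotProduct, rt_dot, rt_dot, algebraMap_smul]
    · rw [Algebra.smul_def, Algebra.smul_def]; ring
  · refine ⟨(b i - b i₁) * z, (hG _ hi _ m₁).1, _, (hG _ m₁ _ hi).2 x hx, h, fun t => ?_⟩
    refine ⟨b i - b i₁, hS _ hi _ m₁, (-t) • x, X.smul_mem _ hx, ?_, ?_⟩
    · have := Cap.root (p := p) (i₃ := i₃) m₁ hi hi1 (hm1 i₁ (Or.inl rfl)) b
      convert this using 1
      ring
    · rw [Algebra.smul_def, Algebra.smul_def, map_neg]; ring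

open Classical in
/-- the elements that leave `Y` -/
noncomputable def DD (O' : Finset O) (E : Finset ι) (a : ι → O → F) (z : ι → F)
    (X : ι → Submodule (ZMod p) F) (Y : Submodule (ZMod p) F) : Finset ι :=
  E.filter fun e => ¬ In O' (a e) (z e) (X e) Y

lemma mem_DD {O' : Finset O} {E : Finset ι} {a : ι → O → F} {z : ι → F}
    {X : ι → Submodule (ZMod p) F} {Y : Submodule (ZMod p) F} {e : ι} :
    e ∈ DD O' E a z X Y ↔ e ∈ E ∧ ¬ In O' (a e) (z e) (X e) Y := by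
  simp [DD]

open Classical in
/-- the class of `i` -/
noncomputable def CC (O' : Finset O) (E : Finset ι) (a : ι → O → F) (i : O) : Finset ι :=
  E.filter fun e => Cls O' i (a e)

lemma mem_CC {O' : Finset O} {E : Finset ι} {a : ι → O → F} {i : O} {e : ι} :
    e ∈ CC O' E a i ↔ e ∈ E ∧ Cls O' i (a e) := by
  simp [CC]

lemma Cls.unique {O' : Finset O} {b : O → F} {i l n : O} (h : Cls O' i b) (h' : Cls O' l b)
    (hn : NC O' b) (hi : i ∈ O') (hil : i ≠ l) (mn : n ∈ O') (hni : n ≠ i) (hnl : n ≠ l) :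
    False :=
  h.scale_ne hn mn hni (sub_eq_zero.2 (h' i hi n mn hil hnl))

variable [DecidableEq ι] [Module.Finite (ZMod p) F]

/-- the condition of Rado for the elements outside `A` -/
def RC (D : Submodule (ZMod p) F → Finset ι) (Xs Y : Submodule (ZMod p) F) (A : Finset ι) : Prop :=
  ∀ Y', Xs ≤ Y' → Y' ≤ Y → finrank (ZMod p) Y ≤ finrank (ZMod p) Y' + (D Y' \ A).card

lemma greedy {D : Submodule (ZMod p) F → Finset ι} {Xs Y : Submodule (ZMod p) F} {A π : Finset ι}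
    (hXs : Xs ≤ Y) (hD : ∀ Y₁ Y₂, D (Y₁ ⊓ Y₂) ⊆ D Y₁ ∪ D Y₂) (hD' : ∀ Y₁ Y₂, Y₁ ≤ Y₂ → D Y₂ ⊆ D Y₁)
    (hDY : D Y = ∅)
    (hb : ∀ Y', Xs ≤ Y' → Y' ≤ Y →
      (finrank (ZMod p) Y - finrank (ZMod p) Y') * (p - 1) + (p - 2) ≤ (D Y' ∪ π).card)
    (hR : RC D Xs Y A) (hA : A.card < (p - 2) * (p - 1 - (A ∩ π).card)) :
    ∃ e ∈ π, e ∉ A ∧ RC D Xs Y (insert e A) := by
  by_contra hcon
  push Not at hcon
  let Tight : Submodule (ZMod p) F → Prop := fun Y' =>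
    Xs ≤ Y' ∧ Y' ≤ Y ∧ finrank (ZMod p) Y' + (D Y' \ A).card ≤ finrank (ZMod p) Y
  have one : ∀ e ∈ π \ A, ∃ Y', Tight Y' ∧ e ∈ D Y' := by
    intro e he
    rw [mem_sdiff] at he
    have := hcon e he.1 he.2
    simp only [RC, not_forall, not_le] at this
    obtain ⟨Y', h1, h2, h3⟩ := this
    have h4 := hR Y' h1 h2
    rw [sdiff_insert] at h3
    by_cases h : e ∈ D Y' \ A
    · rw [card_erase_of_mem h] at h3
      exact ⟨Y', ⟨h1, h2, by omega⟩, (mem_sdiff.1 h).1⟩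
    · rw [erase_eq_of_notMem h] at h3
      omega
  have meet : ∀ Y₁ Y₂, Tight Y₁ → Tight Y₂ → Tight (Y₁ ⊓ Y₂) := by
    rintro Y₁ Y₂ ⟨a1, a2, a3⟩ ⟨b1, b2, b3⟩
    refine ⟨le_inf a1 b1, inf_le_left.trans a2, ?_⟩
    have h1 := hR (Y₁ ⊔ Y₂) (a1.trans le_sup_left) (sup_le a2 b2)
    have h2 := Submodule.finrank_sup_add_finrank_inf_eq Y₁ Y₂
    have h3 := card_union_add_card_inter (D Y₁ \ A) (D Y₂ \ A)
    have h4 : (D (Y₁ ⊓ Y₂) \ A).card ≤ ((D Y₁ \ A) ∪ (D Y₂ \ A)).card := by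
      rw [← union_sdiff_distrib]
      exact card_le_card (sdiff_subset_sdiff (hD _ _) subset_rfl)
    have h5 : (D (Y₁ ⊔ Y₂) \ A).card ≤ ((D Y₁ \ A) ∩ (D Y₂ \ A)).card :=
      card_le_card (subset_inter (sdiff_subset_sdiff (hD' _ _ le_sup_left) subset_rfl)
        (sdiff_subset_sdiff (hD' _ _ le_sup_right) subset_rfl))
    omega
  have all : ∀ T ⊆ π \ A, ∃ Y', Tight Y' ∧ T ⊆ D Y' := by
    intro T
    induction T using Finset.induction with
    | empty => exact fun _ => ⟨Y, ⟨hXs, le_rfl, by simp [hDY]⟩, empty_subset _⟩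
    | insert e T _ ih =>
      intro h
      obtain ⟨Y₁, a1, a2⟩ := one e (h (mem_insert_self _ _))
      obtain ⟨Y₂, b1, b2⟩ := ih ((subset_insert _ _).trans h)
      exact ⟨Y₁ ⊓ Y₂, meet _ _ a1 b1,
        insert_subset (hD' _ _ inf_le_left a2) (b2.trans (hD' _ _ inf_le_right))⟩
  obtain ⟨Y', ⟨h1, h2, h3⟩, h4⟩ := all _ subset_rfl
  have c1 := hb Y hXs le_rfl
  rw [hDY, empty_union, Nat.sub_self, zero_mul, zero_add] at c1
  have c2 := hb Y' h1 h2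
  have c3 : (D Y' ∪ π).card ≤ (D Y' \ A).card + A.card := by
    refine le_trans (card_le_card fun e he => ?_) (card_union_le _ _)
    by_cases h : e ∈ A
    · exact mem_union_right _ h
    · refine mem_union_left _ (mem_sdiff.2 ⟨?_, h⟩)
      rcases mem_union.1 he with h' | h'
      · exact h'
      · exact h4 (mem_sdiff.2 ⟨h', h⟩)
  have c4 : (π \ A).card ≤ (D Y' \ A).card :=
    card_le_card fun e he => mem_sdiff.2 ⟨h4 he, (mem_sdiff.1 he).2⟩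
  have c5 := card_sdiff_add_card_inter π A
  rw [inter_comm] at c5
  have hp2 := (Fact.out : p.Prime).two_le
  obtain ⟨q, rfl⟩ : ∃ q, p = q + 2 := ⟨p - 2, by omega⟩
  set κ := finrank (ZMod (q + 2)) Y - finrank (ZMod (q + 2)) Y'
  have c6 : (D Y' \ A).card ≤ κ := by omega
  have c7 : q + 2 - 1 - (A ∩ π).card ≤ κ + 1 := by omega
  have c8 := Nat.mul_le_mul_left (q + 2 - 2) c7
  simp only [Nat.add_sub_cancel, show q + 2 - 1 = q + 1 by omega] at *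
  nlinarith

lemma greedy_n {D : Submodule (ZMod p) F → Finset ι} {Xs Y : Submodule (ZMod p) F}
    {A π : Finset ι}
    (hXs : Xs ≤ Y) (hD : ∀ Y₁ Y₂, D (Y₁ ⊓ Y₂) ⊆ D Y₁ ∪ D Y₂) (hD' : ∀ Y₁ Y₂, Y₁ ≤ Y₂ → D Y₂ ⊆ D Y₁)
    (hDY : D Y = ∅)
    (hb : ∀ Y', Xs ≤ Y' → Y' ≤ Y →
      (finrank (ZMod p) Y - finrank (ZMod p) Y') * (p - 1) + (p - 2) ≤ (D Y' ∪ π).card)
    (hR : RC D Xs Y A) (n : ℕ)
    (hA : ∀ m < n, A.card + m < (p - 2) * (p - 1 - ((A ∩ π).card + m))) :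
    ∃ B ⊆ π, Disjoint A B ∧ B.card = n ∧ RC D Xs Y (A ∪ B) := by
  induction n with
  | zero => exact ⟨∅, empty_subset _, disjoint_empty_right _, rfl, by simpa using hR⟩
  | succ n ih =>
    obtain ⟨B, h1, h2, h3, h4⟩ := ih fun m hm => hA m (by omega)
    obtain ⟨e, c1, c2, c3⟩ := greedy hXs hD hD' hDY hb h4 (by
      rw [card_union_of_disjoint h2, union_inter_distrib_right, inter_eq_left.2 h1,
        card_union_of_disjoint (h2.mono_left inter_subset_left), h3]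
      exact hA n (by omega))
    rw [mem_union, not_or] at c2
    refine ⟨insert e B, insert_subset c1 h1, disjoint_insert_right.2 ⟨c2.1, h2⟩,
      by rw [card_insert_of_notMem c2.2, h3], by rwa [union_insert]⟩

lemma exists_values (A : Finset ι) (hA : A.card = p - 2) : ∃ τ : ι → ZMod p,
    (∀ f ∈ A, τ f ≠ 0 ∧ τ f ≠ 1) ∧ ∀ t, t ≠ 0 → t ≠ 1 → ∃ f ∈ A, τ f = t := by
  have hT : A.card = ((univ.erase (0 : ZMod p)).erase 1).card := by
    rw [card_erase_of_mem (by simp), card_erase_of_mem (by simp), card_univ, ZMod.card, hA]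
    omega
  let σ := Finset.equivOfCardEq hT
  refine ⟨fun f => if h : f ∈ A then (σ ⟨f, h⟩ : ZMod p) else 0, fun f hf => ?_, fun t h0 h1 => ?_⟩
  · have := (σ ⟨f, hf⟩).2
    simp only [mem_erase] at this
    simp only [hf, dif_pos]
    exact ⟨this.2.1, this.1⟩
  · obtain ⟨f, hf⟩ := σ.surjective ⟨t, by simp [h0, h1]⟩
    exact ⟨f, f.2, by simp [hf]⟩

/-- the anchors `A₁, A₂, g` (and `g₀` if `i₃` is free) with the condition of Rado give a solution -/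
theorem assemble (hp : p ≠ 2) {S : Submodule (ZMod p) F} {O' An : Finset O} {E : Finset ι}
    {a : ι → O → F} {z : ι → F} {X : ι → Submodule (ZMod p) F} {Y : Submodule (ZMod p) F}
    (hnc : ∀ e ∈ E, NC O' (a e)) (hS : ∀ e ∈ E, Dif S O' (a e))
    (hin : ∀ e ∈ E, In O' (a e) (z e) (X e) Y) {i₁ i₂ i₃ : O}
    (m₁ : i₁ ∈ O') (m₂ : i₂ ∈ O') (m₃ : i₃ ∈ O') (h12 : i₁ ≠ i₂) (h13 : i₁ ≠ i₃) (h23 : i₂ ≠ i₃)
    {A A₁ A₂ : Finset ι} {g e₀ : ι} (hAE : A ⊆ E) (s₁ : A₁ ⊆ A) (s₂ : A₂ ⊆ A) (s₃ : g ∈ A)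
    (c₁ : ∀ f ∈ A₁, Cls O' i₁ (a f)) (c₂ : ∀ f ∈ A₂, Cls O' i₂ (a f)) (c₃ : Cls O' i₃ (a g))
    (n₁ : A₁.card = p - 2) (n₂ : A₂.card = p - 2) (he₀ : e₀ ∈ A₁)
    (hAn : ∀ i ∈ O', i ≠ i₃ → i ∈ An)
    (hAn' : i₃ ∈ An ∨ ∃ g₀ ∈ A, g₀ ≠ g ∧ Cls O' i₃ (a g₀))
    (hR : RC (DD O' E a z X) (sc (a e₀ i₁ - a e₀ i₂) (X e₀)) Y A) : SolS S O' An E a z X := by
  classical
  obtain ⟨τ₁, t1, u1⟩ := exists_values (p := p) A₁ n₁
  obtain ⟨τ₂, t2, u2⟩ := exists_values (p := p) A₂ n₂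
  have d12 : ∀ f ∈ A₂, f ∉ A₁ := fun f h h' =>
    (c₁ f h').unique (c₂ f h) (hnc f (hAE (s₁ h'))) m₁ h12 m₃ h13.symm h23.symm
  have d13 : ∀ f, Cls O' i₃ (a f) → f ∉ A₁ := fun f h h' =>
    (c₁ f h').unique h (hnc f (hAE (s₁ h'))) m₁ h13 m₂ h12.symm h23
  have d23 : ∀ f, Cls O' i₃ (a f) → f ∉ A₂ := fun f h h' =>
    (c₂ f h').unique h (hnc f (hAE (s₂ h'))) m₂ h23 m₁ h12 h13
  let vA : ι → F := fun f =>
    if f ∈ A₁ then algebraMap (ZMod p) F (τ₁ f) * (a f i₁ - a f i₂)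
    else if f ∈ A₂ then algebraMap (ZMod p) F (τ₂ f) * (a f i₂ - a f i₁)
    else if f = g then -2 * (a f i₃ - a f i₁) else 0
  have v1 : ∀ f ∈ A₁, vA f = algebraMap (ZMod p) F (τ₁ f) * (a f i₁ - a f i₂) := fun f h => by
    simp [vA, h]
  have v2 : ∀ f ∈ A₂, vA f = algebraMap (ZMod p) F (τ₂ f) * (a f i₂ - a f i₁) := fun f h => by
    simp [vA, h, d12 f h]
  have v3 : vA g = -2 * (a g i₃ - a g i₁) := by simp [vA, d13 g c₃, d23 g c₃]
  have vall : ∀ f ∈ A, ∃ i ∈ O', ∃ l ∈ O', i ≠ l ∧ ∃ t : ZMod p,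
      InV p i₁ i₂ i₃ i (algebraMap (ZMod p) F t) ∧
      vA f = algebraMap (ZMod p) F t * (a f i - a f l) := by
    intro f _
    by_cases h1 : f ∈ A₁
    · exact ⟨i₁, m₁, i₂, m₂, h12, τ₁ f,
        Or.inr (Or.inl ⟨Or.inl rfl, _, (t1 f h1).2, rfl⟩), v1 f h1⟩
    by_cases h2 : f ∈ A₂
    · exact ⟨i₂, m₂, i₁, m₁, h12.symm, τ₂ f,
        Or.inr (Or.inl ⟨Or.inr rfl, _, (t2 f h2).2, rfl⟩), v2 f h2⟩
    by_cases h3 : f = g
    · exact ⟨i₃, m₃, i₁, m₁, h13.symm, -2, Or.inr (Or.inr ⟨rfl, by simp [map_ofNat]⟩),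
        by rw [h3, v3]; simp [map_ofNat]⟩
    · exact ⟨i₁, m₁, i₂, m₂, h12, 0, Or.inl (by simp), by simp [vA, h1, h2, h3]⟩
  have hγ : -∑ f ∈ A, vA f * z f ∈ Y := neg_mem (sum_mem fun f hf => by
    obtain ⟨i, hi, l, hl, -, t, -, h⟩ := vall f hf
    rw [h, mul_assoc, ← Algebra.smul_def]
    exact Y.smul_mem _ (hin f (hAE hf) i hi l hl).1)
  obtain ⟨w, w1, w2⟩ := cov (K := ZMod p)
    (fun e => {w | ∃ c' ∈ S, ∃ x ∈ X e, Cap p O' i₁ i₂ i₃ (a e) c' ∧ w = c' * (z e + x)})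
    (E \ A) _ Y ((hin e₀ (hAE (s₁ he₀))).sc_le m₁ m₂)
    (fun e _ => ⟨0, zero_mem _, 0, zero_mem _, Cap.zero _ _ _ _ _, by simp⟩)
    (fun Y' b1 b2 => ⟨DD O' E a z X Y' \ A,
      sdiff_subset_sdiff (fun e he => (mem_DD.1 he).1) subset_rfl, hR Y' b1 b2, fun e he => by
        have he := mem_DD.1 (mem_sdiff.1 he).1
        exact moves hp m₁ m₂ h12 (hS e he.1) (hin e he.1) he.2⟩) hγ
  choose! vB b1 xB b2 b3 b4 using w1
  obtain ⟨x₀, hx₀, w3⟩ := mem_sc.1 w2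
  let v : ι → F := fun e => if e ∈ A then vA e else if e ∈ E then vB e else 0
  have hvA : ∀ f ∈ A, v f = vA f := fun f h => by simp [v, h]
  have hvB : ∀ f ∈ E \ A, v f = vB f := fun f h => by
    rw [mem_sdiff] at h
    simp [v, h.1, h.2]
  have hv0 : ∀ f, f ∉ E → v f = 0 := fun f h => by
    have : f ∉ A := fun h' => h (hAE h')
    simp [v, h, this]
  have tri : ∀ e, e ∈ A ∨ e ∈ E \ A ∨ e ∉ E := fun e => by
    by_cases h1 : e ∈ A <;> by_cases h2 : e ∈ E <;> simp [h1, h2]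
  have hPin : Pin O' O' a v := by
    refine pin_of_anchors hp m₁ m₂ m₃ h12 h13 h23 (fun t h0 h1 => ?_) (fun t h0 h1 => ?_) c₃
      (hnc g (hAE s₃)) (by rw [hvA g s₃, v3]) fun e => ?_
    · obtain ⟨f, hf, rfl⟩ := u1 t h0 h1
      exact ⟨f, c₁ f hf, hnc f (hAE (s₁ hf)), fun l hl hli => by
        rw [hvA f (s₁ hf), v1 f hf, c₁ f hf i₂ m₂ l hl h12.symm hli]⟩
    · obtain ⟨f, hf, rfl⟩ := u2 t h0 h1
      exact ⟨f, c₂ f hf, hnc f (hAE (s₂ hf)), fun l hl hli => by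
        rw [hvA f (s₂ hf), v2 f hf, c₂ f hf i₁ m₁ l hl h12 hli]⟩
    · rcases tri e with h | h | h
      · obtain ⟨i, hi, l, hl, hil, t, c, h'⟩ := vall e h
        rw [hvA e h, h']
        exact Cap.root hi hl hil c _
      · rw [hvB e h]; exact b3 e h
      · rw [hv0 e h]; exact Cap.zero _ _ _ _ _
  have ht0 : algebraMap (ZMod p) F (τ₁ e₀) ≠ 0 := (map_ne_zero _).2 (t1 e₀ he₀).1
  refine ⟨v, fun e => ?_, hv0, fun h => ?_, ?_,
    fun e => if e = e₀ then (τ₁ e₀)⁻¹ • x₀ else if e ∈ E \ A then xB e else 0, fun e => ?_, ?_⟩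
  · rcases tri e with h | h | h
    · obtain ⟨i, hi, l, hl, -, t, -, h'⟩ := vall e h
      rw [hvA e h, h', ← Algebra.smul_def]
      exact S.smul_mem _ (hS e (hAE h) i hi l hl)
    · rw [hvB e h]; exact b1 e h
    · rw [hv0 e h]; exact zero_mem _
  · have := congrFun h e₀
    rw [hvA _ (s₁ he₀), v1 _ he₀] at this
    exact mul_ne_zero ht0 ((c₁ _ he₀).scale_ne (hnc _ (hAE (s₁ he₀))) m₂ h12.symm) this
  · rcases hAn' with h | ⟨g₀, h1, h2, h3⟩
    · refine hPin.mono fun i hi _ => ?_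
      by_cases h' : i = i₃
      · rw [h']; exact h
      · exact hAn i hi h'
    · refine Pin.of_insert (i₀ := i₃) (hPin.mono fun i hi _ => ?_) hAn h3 (hnc _ (hAE h1)) ?_
      · by_cases h' : i = i₃
        · rw [h']; exact mem_insert_self _ _
        · exact mem_insert_of_mem (hAn i hi h')
      · rw [hvA _ h1]
        simp [vA, d13 _ h3, d23 _ h3, h2]
  · by_cases h : e = e₀
    · subst h; simpa using (X e).smul_mem _ hx₀
    · by_cases h' : e ∈ E \ A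
      · simpa only [h, h', if_true, if_false] using b2 e h'
      · simp only [h, h', if_false, zero_mem]
  · rw [← sum_sdiff hAE]
    have e1 : ∑ e ∈ E \ A, v e * (z e +
        if e = e₀ then (τ₁ e₀)⁻¹ • x₀ else if e ∈ E \ A then xB e else 0) = ∑ e ∈ E \ A, w e := by
      refine sum_congr rfl fun e he => ?_
      have : e ≠ e₀ := fun h => (mem_sdiff.1 he).2 (h ▸ s₁ he₀)
      rw [if_neg this, if_pos he, hvB e he, b4 e he]
    have e2 : ∑ e ∈ A, v e * (z e +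
        if e = e₀ then (τ₁ e₀)⁻¹ • x₀ else if e ∈ E \ A then xB e else 0) =
        ∑ e ∈ A, vA e * z e + (a e₀ i₁ - a e₀ i₂) * x₀ := by
      simp only [mul_add, sum_add_distrib]
      congr 1
      · exact sum_congr rfl fun e he => by rw [hvA e he]
      · rw [sum_eq_single_of_mem e₀ (s₁ he₀)]
        · rw [if_pos rfl, hvA _ (s₁ he₀), v1 _ he₀, Algebra.smul_def, map_inv₀]
          field_simp
        · intro e he hne
          rw [if_neg hne, if_neg (fun h => (mem_sdiff.1 h).2 he), mul_zero]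
    rw [e1, e2, w3]
    ring

end Pool.Agent.MP_d99b12_co.H81
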