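import Pool.Agent.MP_d99b12_co.H81.GO

/-!
Pinned vectors: definitions and the three basic rules.
-/

set_option linter.unusedSectionVars false

namespace Pool.Agent.MP_d99b12_co.H81

open Module Finset

variable {F O ι : Type*} [Field F] [Fintype O] [DecidableEq O]

/-- functions with sum zero supported in `O'` -/
def NS (O' : Finset O) (φ : O → F) : Prop := (∀ i, i ∉ O' → φ i = 0) ∧ ∑ i, φ i = 0

/-- `u` follows `v` along every section -/
def Good (O' An : Finset O) (a : ι → O → F) (v u : ι → F) : Prop :=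
  ∀ φ : O → F, NS O' φ → ∃ ψ : O → F, NS O' ψ ∧ (∀ i ∈ An, φ i = 0 → ψ i = 0) ∧
    ∀ e, φ ⬝ᵥ a e = v e → ψ ⬝ᵥ a e = u e

/-- `v` is pinned -/
def Pin (O' An : Finset O) (a : ι → O → F) (v : ι → F) : Prop :=
  ∀ u : ι → F, Good O' An a v u → ∃ σ : F, ∀ e, u e = σ * v e

/-- `b` is constant on `O' - i` -/
def Cls (O' : Finset O) (i : O) (b : O → F) : Prop :=
  ∀ l ∈ O', ∀ l' ∈ O', l ≠ i → l' ≠ i → b l = b l'

/-- `b` is not constant on `O'` -/
def NC (O' : Finset O) (b : O → F) : Prop := ∃ l ∈ O', ∃ l' ∈ O', b l ≠ b l'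

/-- all scaled copies of `z` and `X` lie in `Y` -/
def In {p : ℕ} [Algebra (ZMod p) F] (O' : Finset O) (b : O → F) (z : F)
    (X Y : Submodule (ZMod p) F) : Prop :=
  ∀ i ∈ O', ∀ i' ∈ O', (b i - b i') * z ∈ Y ∧ ∀ x ∈ X, (b i - b i') * x ∈ Y

/-- a nonzero pinned relation supported in `E` -/
def Sol {p : ℕ} [Algebra (ZMod p) F] (O' An : Finset O) (E : Finset ι) (a : ι → O → F)
    (z : ι → F) (X : ι → Submodule (ZMod p) F) : Prop :=
  ∃ v : ι → F, (∀ e, e ∉ E → v e = 0) ∧ v ≠ 0 ∧ Pin O' An a v ∧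
    ∃ x : ι → F, (∀ e, x e ∈ X e) ∧ ∑ e ∈ E, v e * (z e + x e) = 0

/-- all of `O'` is anchored, except possibly `i₀`, which is then the class of `o ∈ E` -/
def Mode (O' An : Finset O) (E : Finset ι) (a : ι → O → F) (i₀ : O) (o : ι) : Prop :=
  ∀ i ∈ O', i ∈ An ∨ (i = i₀ ∧ o ∈ E ∧ Cls O' i₀ (a o))

lemma NS.zero (O' : Finset O) : NS O' (0 : O → F) := ⟨fun _ _ => rfl, by simp⟩

lemma NS.mono {O' O'' : Finset O} (h : O' ⊆ O'') {φ : O → F} (hφ : NS O' φ) : NS O'' φ :=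
  ⟨fun i hi => hφ.1 i fun h' => hi (h h'), hφ.2⟩

lemma NS.eq_zero {O' : Finset O} {ψ : O → F} (h : NS O' ψ) (i₀ : O)
    (h0 : ∀ i ∈ O', i ≠ i₀ → ψ i = 0) : ψ = 0 := by
  have h1 : ∀ i, i ≠ i₀ → ψ i = 0 := fun i hi => by
    by_cases h' : i ∈ O'
    · exact h0 i h' hi
    · exact h.1 i h'
  have h2 := h.2
  rw [Finset.sum_eq_single i₀ (fun i _ hi => h1 i hi) (by simp)] at h2
  funext i
  by_cases hi : i = i₀
  · rw [hi]; exact h2
  · exact h1 i hi

lemma NS.sub {O' : Finset O} {φ ψ : O → F} (h : NS O' φ) (h' : NS O' ψ) : NS O' (φ - ψ) :=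
  ⟨fun i hi => by simp [h.1 i hi, h'.1 i hi], by simp [sum_sub_distrib, h.2, h'.2]⟩

lemma NS.add {O' : Finset O} {φ ψ : O → F} (h : NS O' φ) (h' : NS O' ψ) : NS O' (φ + ψ) :=
  ⟨fun i hi => by simp [h.1 i hi, h'.1 i hi], by simp [sum_add_distrib, h.2, h'.2]⟩

lemma NS.smul {O' : Finset O} {φ : O → F} (h : NS O' φ) (c : F) : NS O' (c • φ) :=
  ⟨fun i hi => by simp [h.1 i hi], by simp [← mul_sum, h.2]⟩

/-- the root `e i - e l` -/
def rt (F : Type*) [Field F] (i l : O) : O → F :=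
  fun n => (if n = i then 1 else 0) - (if n = l then 1 else 0)

lemma NS.root {O' : Finset O} {i l : O} (hi : i ∈ O') (hl : l ∈ O') : NS O' (rt F i l) := by
  refine ⟨fun n hn => ?_, by simp [rt, sum_sub_distrib]⟩
  have h1 : n ≠ i := fun h => hn (h ▸ hi)
  have h2 : n ≠ l := fun h => hn (h ▸ hl)
  simp [rt, h1, h2]

lemma rt_dot (i l : O) (b : O → F) : rt F i l ⬝ᵥ b = b i - b l := by
  simp [rt, dotProduct, sub_mul, sum_sub_distrib]

lemma rt_left {i l : O} (h : i ≠ l) : rt F i l i = 1 := by simp [rt, h]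

lemma rt_right {i l : O} (h : i ≠ l) : rt F i l l = -1 := by simp [rt, h.symm]

lemma rt_other {i l n : O} (h : n ≠ i) (h' : n ≠ l) : rt F i l n = 0 := by simp [rt, h, h']

/-- a section evaluated at an element of class `i` -/
lemma NS.dot_cls {O' : Finset O} {φ b : O → F} (h : NS O' φ) {i l : O} (hb : Cls O' i b)
    (hl : l ∈ O') (hli : l ≠ i) : φ ⬝ᵥ b = φ i * (b i - b l) := by
  have h1 : φ ⬝ᵥ b = ∑ n, φ n * (b n - b l) := by
    simp only [dotProduct, mul_sub, sum_sub_distrib, ← sum_mul, h.2, zero_mul, sub_zero]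
  rw [h1, Finset.sum_eq_single i _ (by simp)]
  intro n _ hn
  by_cases h' : n ∈ O'
  · rw [hb n h' l hl hn hli, sub_self, mul_zero]
  · rw [h.1 n h', zero_mul]

lemma Cls.scale_ne {O' : Finset O} {b : O → F} {i l : O} (hb : Cls O' i b) (hn : NC O' b)
    (hl : l ∈ O') (hli : l ≠ i) : b i - b l ≠ 0 := by
  intro h
  have h1 : ∀ n ∈ O', b n = b l := fun n hn => by
    by_cases h' : n = i
    · rw [h']; exact sub_eq_zero.1 h
    · exact hb n hn l hl h' hli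
  obtain ⟨m, hm, m', hm', hne⟩ := hn
  exact hne ((h1 m hm).trans (h1 m' hm').symm)

/-- (P1) -/
lemma Good.zero {O' An : Finset O} {a : ι → O → F} {v u : ι → F} (h : Good O' An a v u) (i₀ : O)
    (hA : ∀ i ∈ O', i ≠ i₀ → i ∈ An) {e : ι} (he : v e = 0) : u e = 0 := by
  obtain ⟨ψ, h1, h2, h3⟩ := h 0 (NS.zero _)
  have := h3 e (by simp [he])
  rw [h1.eq_zero i₀ fun i hi hne => h2 i (hA i hi hne) rfl] at this
  simpa using this.symm

lemma Pin.mono {O' An An' : Finset O} {a : ι → O → F} {v : ι → F} (h : Pin O' An a v)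
    (hA : ∀ i ∈ O', i ∈ An → i ∈ An') : Pin O' An' a v := fun u hu => h u fun φ hφ => by
  obtain ⟨ψ, h1, h2, h3⟩ := hu φ hφ
  refine ⟨ψ, h1, fun i hi h0 => ?_, h3⟩
  by_cases h' : i ∈ O'
  · exact h2 i (hA i h' hi) h0
  · exact h1.1 i h'

/-- (P2) -/
lemma Pin.of_subset {O' O'' An : Finset O} {a : ι → O → F} {v : ι → F} (h : Pin O'' An a v)
    (hO : O'' ⊆ O') (hA : ∀ i ∈ O', i ∉ O'' → i ∈ An) : Pin O' An a v := fun u hu =>
  h u fun φ hφ => by
    obtain ⟨ψ, h1, h2, h3⟩ := hu φ (hφ.mono hO)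
    refine ⟨ψ, ⟨fun i hi => ?_, h1.2⟩, h2, h3⟩
    by_cases h' : i ∈ O'
    · exact h2 i (hA i h' hi) (hφ.1 i hi)
    · exact h1.1 i h'

/-- (P3) -/
lemma Pin.of_insert {O' An : Finset O} {a : ι → O → F} {v : ι → F} {i₀ : O}
    (h : Pin O' (insert i₀ An) a v) (hA : ∀ i ∈ O', i ≠ i₀ → i ∈ An) {g : ι}
    (hg : Cls O' i₀ (a g)) (hn : NC O' (a g)) (hv : v g = 0) : Pin O' An a v := fun u hu =>
  h u fun φ hφ => by
    obtain ⟨ψ, h1, h2, h3⟩ := hu φ hφ
    refine ⟨ψ, h1, fun i hi h0 => ?_, h3⟩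
    rcases mem_insert.1 hi with rfl | hi
    · obtain ⟨l, hl, hli⟩ : ∃ l ∈ O', l ≠ i := by
        obtain ⟨m, hm, m', hm', hne⟩ := hn
        by_cases h' : m = i
        · exact ⟨m', hm', fun h'' => hne (by rw [h', h''])⟩
        · exact ⟨m, hm, h'⟩
      have h4 := h3 g (by rw [hφ.dot_cls hg hl hli, h0, zero_mul, hv])
      rw [h1.dot_cls hg hl hli, hu.zero i hA hv] at h4
      exact (mul_eq_zero.1 h4).resolve_right (hg.scale_ne hn hl hli)
    · exact h2 i hi h0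

section

variable {p : ℕ} [Algebra (ZMod p) F]

lemma In.mono {O' O'' : Finset O} {b : O → F} {z : F} {X Y Y' : Submodule (ZMod p) F}
    (h : In O' b z X Y) (hO : O'' ⊆ O') (hY : Y ≤ Y') : In O'' b z X Y' := fun i hi i' hi' =>
  ⟨hY (h i (hO hi) i' (hO hi')).1, fun x hx => hY ((h i (hO hi) i' (hO hi')).2 x hx)⟩

lemma In.inf {O' : Finset O} {b : O → F} {z : F} {X Y Y' : Submodule (ZMod p) F}
    (h : In O' b z X Y) (h' : In O' b z X Y') : In O' b z X (Y ⊓ Y') := fun i hi i' hi' =>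
  ⟨⟨(h i hi i' hi').1, (h' i hi i' hi').1⟩,
    fun x hx => ⟨(h i hi i' hi').2 x hx, (h' i hi i' hi').2 x hx⟩⟩

/-- enlarge the support and the index set -/
lemma Sol.lift {O' O'' An An' : Finset O} {E E' : Finset ι} {a : ι → O → F} {z : ι → F}
    {X : ι → Submodule (ZMod p) F} (h : Sol O'' An' E' a z X) (hE : E' ⊆ E)
    (hP : ∀ v : ι → F, (∀ e, e ∉ E' → v e = 0) → Pin O'' An' a v → Pin O' An a v) :
    Sol O' An E a z X := by
  obtain ⟨v, h1, h2, h3, x, h4, h5⟩ := h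
  refine ⟨v, fun e he => h1 e fun h' => he (hE h'), h2, hP v h1 h3, x, h4, ?_⟩
  rw [← h5]
  exact (sum_subset hE fun e _ he => by rw [h1 e he, zero_mul]).symm

end

/-- ATL, anchored mode: any field entries, twisted spaces -/
def ATLN (p : ℕ) (F : Type) [Field F] [Algebra (ZMod p) F] : Prop :=
  ∀ (O ι : Type) [Fintype O] [DecidableEq O] (O' : Finset O) (E : Finset ι) (a : ι → O → F)
    (z : ι → F) (X : ι → Submodule (ZMod p) F) (Y : Submodule (ZMod p) F) (r : ℕ),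
    2 ≤ O'.card → (∀ e ∈ E, NC O' (a e)) → (∀ e ∈ E, r ≤ finrank (ZMod p) (X e)) →
    (∀ e ∈ E, In O' (a e) (z e) (X e) Y) →
    (finrank (ZMod p) Y - r) * (p - 1) + (O'.card - 2) * (p - 3) < E.card →
    Sol O' O' E a z X

/-- ATL, uniform mode: entries in the prime field, one space `X`, one index may be free -/
def ATLU (p : ℕ) (F : Type) [Field F] [Algebra (ZMod p) F] : Prop :=
  ∀ (O ι : Type) [Fintype O] [DecidableEq O] (O' An : Finset O) (E : Finset ι) (a : ι → O → F)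
    (z : ι → F) (X Y : Submodule (ZMod p) F) (i₀ : O) (o : ι),
    3 ≤ O'.card → (∀ e ∈ E, NC O' (a e)) →
    (∀ e ∈ E, ∀ i ∈ O', ∀ i' ∈ O', ∃ c : ZMod p, a e i - a e i' = algebraMap (ZMod p) F c) →
    Mode O' An E a i₀ o → X ≤ Y → (∀ e ∈ E, z e ∈ Y) →
    (finrank (ZMod p) Y - finrank (ZMod p) X) * (p - 1) + (O'.card - 3) * (p - 3) < E.card →
    Sol O' An E a z fun _ => X

end Pool.Agent.MP_d99b12_co.H81
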