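import Pool.Agent.MP_d99b12_co.H81.Pin

/-!
Stars, linked stars and rigid anchor systems.
-/

set_option linter.unusedSectionVars false

namespace Pool.Agent.MP_d99b12_co.H81

open Module Finset

variable {F O ι : Type*} [Field F] [Fintype O] [DecidableEq O]

lemma Good.root {O' An : Finset O} {a : ι → O → F} {v u : ι → F} (h : Good O' An a v u) {i l : O}
    (hi : i ∈ O') (hl : l ∈ O') (hil : i ≠ l) (hA : ∀ n ∈ O', n ≠ i → n ≠ l → n ∈ An) :
    ∃ σ : F, ∀ e, v e = a e i - a e l → u e = σ * v e := by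
  obtain ⟨ψ, h1, h2, h3⟩ := h _ (NS.root hi hl)
  refine ⟨ψ i, fun e he => ?_⟩
  have h4 := (h1.sub ((NS.root hi hl).smul (ψ i))).eq_zero l fun n hn hnl => by
    by_cases hni : n = i
    · subst hni; simp [rt_left hil]
    · simp [rt_other hni hnl, h2 n (hA n hn hni hnl) (rt_other hni hnl)]
  have h5 := h3 e (by rw [rt_dot, he])
  rw [sub_eq_zero.1 h4, smul_dotProduct, rt_dot, ← he] at h5
  exact h5.symm

/-- one star -/
lemma pin_star {O' An : Finset O} {a : ι → O → F} {v : ι → F} (i₀ : O)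
    (h₀ : ∀ n ∈ O', n ≠ i₀ → n ∈ An) {i l : O}
    (hi : i ∈ O') (hl : l ∈ O') (hil : i ≠ l) (hA : ∀ n ∈ O', n ≠ i → n ≠ l → n ∈ An)
    (hv : ∀ e, v e = 0 ∨ v e = a e i - a e l) : Pin O' An a v := fun u hu => by
  obtain ⟨σ, h⟩ := hu.root hi hl hil hA
  refine ⟨σ, fun e => ?_⟩
  rcases hv e with h1 | h1
  · rw [hu.zero i₀ h₀ h1, h1, mul_zero]
  · exact h e h1

/-- two stars linked through `g` -/
lemma pin_star₂ {O' An : Finset O} {a : ι → O → F} {v : ι → F} (i₀ : O)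
    (h₀ : ∀ n ∈ O', n ≠ i₀ → n ∈ An) {i l i' l' : O}
    (hi : i ∈ O') (hl : l ∈ O') (hil : i ≠ l) (hA : ∀ n ∈ O', n ≠ i → n ≠ l → n ∈ An)
    (hi' : i' ∈ O') (hl' : l' ∈ O') (hil' : i' ≠ l') (hA' : ∀ n ∈ O', n ≠ i' → n ≠ l' → n ∈ An)
    {g : ι} (hg : v g ≠ 0) (hg1 : v g = a g i - a g l) (hg2 : v g = a g i' - a g l')
    (hv : ∀ e, v e = 0 ∨ v e = a e i - a e l ∨ v e = a e i' - a e l') :
    Pin O' An a v := fun u hu => by
  obtain ⟨σ, h⟩ := hu.root hi hl hil hA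
  obtain ⟨σ', h'⟩ := hu.root hi' hl' hil' hA'
  have : σ = σ' := mul_right_cancel₀ hg ((h g hg1).symm.trans (h' g hg2))
  subst this
  refine ⟨σ, fun e => ?_⟩
  rcases hv e with h1 | h1 | h1
  · rw [hu.zero i₀ h₀ h1, h1, mul_zero]
  · exact h e h1
  · exact h' e h1

/-- the three roots of a triangle, linked through `g` and `g'` -/
lemma pin_star₃ {O' : Finset O} {a : ι → O → F} {v : ι → F} {i l n : O}
    (hi : i ∈ O') (hl : l ∈ O') (hn : n ∈ O') (hil : i ≠ l) (hin : i ≠ n) (hln : l ≠ n)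
    {g g' : ι} (hg : v g ≠ 0) (hg1 : v g = a g i - a g n) (hg2 : v g = a g i - a g l)
    (hg' : v g' ≠ 0) (hg1' : v g' = a g' i - a g' n) (hg2' : v g' = a g' l - a g' n)
    (hv : ∀ e, v e = 0 ∨ v e = a e i - a e n ∨ v e = a e i - a e l ∨ v e = a e l - a e n) :
    Pin O' O' a v := fun u hu => by
  obtain ⟨σ, h⟩ := hu.root hi hn hin fun _ h _ _ => h
  obtain ⟨σ', h'⟩ := hu.root hi hl hil fun _ h _ _ => h
  obtain ⟨σ'', h''⟩ := hu.root hl hn hln fun _ h _ _ => h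
  have e1 : σ = σ' := mul_right_cancel₀ hg ((h g hg1).symm.trans (h' g hg2))
  have e2 : σ = σ'' := mul_right_cancel₀ hg' ((h g' hg1').symm.trans (h'' g' hg2'))
  subst e1 e2
  refine ⟨σ, fun e => ?_⟩
  rcases hv e with h1 | h1 | h1 | h1
  · rw [hu.zero i (fun _ h _ => h) h1, h1, mul_zero]
  · exact h e h1
  · exact h' e h1
  · exact h'' e h1

variable {p : ℕ} [Fact p.Prime] [Algebra (ZMod p) F]

lemma two_ne_zmod (hp : p ≠ 2) : (2 : ZMod p) ≠ 0 := by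
  intro h
  have : ((2 : ℕ) : ZMod p) = 0 := by simpa using h
  rw [ZMod.natCast_eq_zero_iff] at this
  exact hp ((Nat.prime_dvd_prime_iff_eq Fact.out Nat.prime_two).1 this)

lemma two_ne_field (hp : p ≠ 2) : (2 : F) ≠ 0 := by
  have := (map_ne_zero (algebraMap (ZMod p) F)).2 (two_ne_zmod hp)
  rwa [map_ofNat] at this

lemma rigid_alg (hp : p ≠ 2) (α β : ZMod p → F) (σ : F) (hα : α 0 = 0)
    (h0 : ∀ x, x ≠ 1 → x ≠ -1 → α x + β (-x) = 0) (h2 : ∀ x, x ≠ 1 → α x + β (2 - x) = 2 * σ) :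
    ∀ x, x ≠ 1 → α x = σ * algebraMap (ZMod p) F x := by
  have hp' : p.Prime := Fact.out
  have h2' := two_ne_zmod hp
  let δ : ZMod p → F := fun x => α x - σ * algebraMap (ZMod p) F x
  have step : ∀ x, x ≠ 1 → x ≠ 3 → δ x = δ (x - 2) := by
    intro x h1 h3
    have e1 := h0 (x - 2) (fun h => h3 (by linear_combination h))
      (fun h => h1 (by linear_combination h))
    have e2 := h2 x h1
    rw [neg_sub] at e1
    simp only [δ, map_sub, map_ofNat]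
    linear_combination e2 - e1
  have nz : ∀ m : ℕ, 0 < m → m < p → (m : ZMod p) ≠ 0 := fun m a b h =>
    absurd (Nat.le_of_dvd a ((ZMod.natCast_eq_zero_iff _ _).1 h)) (by omega)
  have path : ∀ m : ℕ, m + 2 ≤ p → δ (3 + 2 * m) = δ 3 := by
    intro m
    induction m with
    | zero => simp
    | succ m ih =>
      intro hm
      rw [step, ← ih (by omega)]
      · congr 1; push_cast; ring
      · intro h
        refine mul_ne_zero h2' (nz (m + 2) (by omega) (by omega)) ?_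
        push_cast at h ⊢; linear_combination h
      · intro h
        refine mul_ne_zero h2' (nz (m + 1) (by omega) (by omega)) ?_
        push_cast at h ⊢; linear_combination h
  have all : ∀ x, x ≠ 1 → δ x = δ 3 := by
    intro x hx
    have e1 : x = 3 + 2 * (((x - 3) / 2).val : ZMod p) := by
      rw [ZMod.natCast_zmod_val]; field_simp; ring
    have e2 := ZMod.val_lt ((x - 3) / 2)
    have e3 : ((x - 3) / 2).val + 1 ≠ p := by
      intro h
      have : ((((x - 3) / 2).val + 1 : ℕ) : ZMod p) = 0 := by rw [h, ZMod.natCast_self]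
      apply hx
      rw [e1]
      push_cast at this
      linear_combination 2 * this
    rw [e1]
    exact path _ (by omega)
  intro x hx
  have := (all x hx).trans (all 0 zero_ne_one).symm
  simp only [δ, hα, map_zero, mul_zero, sub_zero] at this
  exact sub_eq_zero.1 this

variable (p) in
/-- the value sets of the anchor system -/
def InV (i₁ i₂ i₃ i : O) (x : F) : Prop :=
  x = 0 ∨ ((i = i₁ ∨ i = i₂) ∧ ∃ t : ZMod p, t ≠ 1 ∧ x = algebraMap (ZMod p) F t) ∨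
    (i = i₃ ∧ x = -2)

variable (p) in
/-- `c` is a captured value of `b` -/
def Cap (O' : Finset O) (i₁ i₂ i₃ : O) (b : O → F) (c : F) : Prop :=
  ∃ φ : O → F, NS O' φ ∧ (∃ n, ∀ i ∈ O', i ≠ n → InV p i₁ i₂ i₃ i (φ i)) ∧ φ ⬝ᵥ b = c

variable (p) in
/-- the values `t ≠ 0, 1` are taken on the class `i` -/
def FullCls (O' : Finset O) (a : ι → O → F) (v : ι → F) (i : O) : Prop :=
  ∀ t : ZMod p, t ≠ 0 → t ≠ 1 → ∃ f, Cls O' i (a f) ∧ NC O' (a f) ∧
    ∀ l ∈ O', l ≠ i → v f = algebraMap (ZMod p) F t * (a f i - a f l)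

lemma FullCls.alpha {O' : Finset O} {a : ι → O → F} {v : ι → F} (u : ι → F) {i l : O} (hi : i ∈ O')
    (hl : l ∈ O') (hli : l ≠ i) (hf : FullCls p O' a v i) :
    ∃ α : ZMod p → F, α 0 = 0 ∧ ∀ φ ψ : O → F, NS O' φ → NS O' ψ →
      (∀ i ∈ O', φ i = 0 → ψ i = 0) → (∀ e, φ ⬝ᵥ a e = v e → ψ ⬝ᵥ a e = u e) →
      ∀ t, t ≠ 1 → φ i = algebraMap (ZMod p) F t → ψ i = α t := by
  have key : ∀ t : ZMod p, ∃ x : F, (t = 0 → x = 0) ∧ ∀ φ ψ : O → F, NS O' φ → NS O' ψ →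
      (∀ i ∈ O', φ i = 0 → ψ i = 0) → (∀ e, φ ⬝ᵥ a e = v e → ψ ⬝ᵥ a e = u e) →
      t ≠ 1 → φ i = algebraMap (ZMod p) F t → ψ i = x := by
    intro t
    by_cases h0 : t = 0
    · exact ⟨0, fun _ => rfl, fun φ ψ _ _ h _ _ h' => h i hi (by simpa [h0] using h')⟩
    by_cases h1 : t = 1
    · exact ⟨0, fun _ => rfl, fun _ _ _ _ _ _ h => absurd h1 h⟩
    obtain ⟨f, c1, c2, c3⟩ := hf t h0 h1
    refine ⟨u f / (a f i - a f l), fun h => absurd h h0, fun φ ψ b1 b2 _ b4 _ b6 => ?_⟩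
    have := b4 f (by rw [b1.dot_cls c1 hl hli, b6, c3 l hl hli])
    rw [b2.dot_cls c1 hl hli] at this
    rw [eq_div_iff (c1.scale_ne c2 hl hli), this]
  choose α h1 h2 using key
  exact ⟨α, h1 0 rfl, fun φ ψ b1 b2 b3 b4 t => h2 t φ ψ b1 b2 b3 b4⟩

lemma sum_three {O' : Finset O} {ψ : O → F} (h : NS O' ψ) {i₁ i₂ i₃ : O} (h12 : i₁ ≠ i₂)
    (h13 : i₁ ≠ i₃) (h23 : i₂ ≠ i₃) (h0 : ∀ i ∈ O', i ≠ i₁ → i ≠ i₂ → i ≠ i₃ → ψ i = 0) :
    ψ i₁ + ψ i₂ + ψ i₃ = 0 := by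
  have h1 : ∑ i ∈ ({i₁, i₂, i₃} : Finset O), ψ i = ∑ i, ψ i := by
    refine sum_subset (subset_univ _) fun i _ hi => ?_
    simp only [mem_insert, mem_singleton, not_or] at hi
    by_cases h' : i ∈ O'
    · exact h0 i h' hi.1 hi.2.1 hi.2.2
    · exact h.1 i h'
  rw [h.2, sum_insert (by simp [h12, h13]), sum_insert (by simp [h23]), sum_singleton] at h1
  linear_combination h1

/-- RIGID and CAPTURE -/
theorem pin_of_anchors (hp : p ≠ 2) {O' : Finset O} {a : ι → O → F} {v : ι → F} {i₁ i₂ i₃ : O}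
    (m₁ : i₁ ∈ O') (m₂ : i₂ ∈ O') (m₃ : i₃ ∈ O') (h12 : i₁ ≠ i₂) (h13 : i₁ ≠ i₃) (h23 : i₂ ≠ i₃)
    (f₁ : FullCls p O' a v i₁) (f₂ : FullCls p O' a v i₂) {g : ι} (g1 : Cls O' i₃ (a g))
    (g2 : NC O' (a g)) (g3 : v g = -2 * (a g i₃ - a g i₁))
    (hc : ∀ e, Cap p O' i₁ i₂ i₃ (a e) (v e)) : Pin O' O' a v := fun u hu => by
  obtain ⟨α, α0, hα⟩ := f₁.alpha u m₁ m₂ h12.symm
  obtain ⟨β, β0, hβ⟩ := f₂.alpha u m₂ m₁ h12
  have h2 : (2 : F) ≠ 0 := two_ne_field hp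
  have hs := g1.scale_ne g2 m₁ h13
  set σ : F := -(u g / (a g i₃ - a g i₁)) / 2 with hσ
  have hγ : ∀ φ ψ : O → F, NS O' φ → NS O' ψ → (∀ e, φ ⬝ᵥ a e = v e → ψ ⬝ᵥ a e = u e) →
      φ i₃ = -2 → ψ i₃ = -2 * σ := by
    intro φ ψ b1 b2 b4 b6
    have := b4 g (by rw [b1.dot_cls g1 m₁ h13, b6, g3])
    rw [b2.dot_cls g1 m₁ h13] at this
    rw [hσ, ← this]
    field_simp
  have rel : ∀ x y : ZMod p, x ≠ 1 → y ≠ 1 →
      (x + y = 0 → α x + β y = 0) ∧ (x + y = 2 → α x + β y = 2 * σ) := by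
    intro x y hx hy
    let φ : O → F := algebraMap (ZMod p) F x • rt F i₁ i₃ + algebraMap (ZMod p) F y • rt F i₂ i₃
    have b1 : NS O' φ := ((NS.root m₁ m₃).smul _).add ((NS.root m₂ m₃).smul _)
    obtain ⟨ψ, b2, b3, b4⟩ := hu φ b1
    have e1 := hα φ ψ b1 b2 b3 b4 x hx
      (by simp [φ, rt_left h13, rt_other h12 h13, -algebraMap_smul])
    have e2 := hβ φ ψ b1 b2 b3 b4 y hy
      (by simp [φ, rt_left h23, rt_other h12.symm h23, -algebraMap_smul])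
    have e3 : φ i₃ = -algebraMap (ZMod p) F (x + y) := by
      simp [φ, rt_right h13, rt_right h23, -algebraMap_smul]; ring
    have e4 := sum_three b2 h12 h13 h23 fun i hi c1 c2 c3 =>
      b3 i hi (by simp [φ, rt_other c1 c3, rt_other c2 c3])
    refine ⟨fun h => ?_, fun h => ?_⟩
    · have := b3 i₃ m₃ (by rw [e3, h]; simp)
      linear_combination e4 - e1 - e2 - this
    · have := hγ φ ψ b1 b2 b4 (by rw [e3, h, map_ofNat])
      linear_combination e4 - e1 - e2 - this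
  have ne1 : ∀ x : ZMod p, x ≠ -1 → -x ≠ 1 := fun x h h' => h (by linear_combination -h')
  have ne2 : ∀ x : ZMod p, x ≠ 1 → 2 - x ≠ 1 := fun x h h' => h (by linear_combination -h')
  have rα := rigid_alg hp α β σ α0 (fun x c1 c2 => (rel x (-x) c1 (ne1 x c2)).1 (by ring))
    fun x c1 => (rel x (2 - x) c1 (ne2 x c1)).2 (by ring)
  have rβ := rigid_alg hp β α σ β0
    (fun x c1 c2 => by rw [add_comm]; exact (rel (-x) x (ne1 x c2) c1).1 (by ring))
    fun x c1 => by rw [add_comm]; exact (rel (2 - x) x (ne2 x c1) c1).2 (by ring)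
  refine ⟨σ, fun e => ?_⟩
  obtain ⟨φ, b1, ⟨n, hn⟩, b5⟩ := hc e
  obtain ⟨ψ, b2, b3, b4⟩ := hu φ b1
  have h4 := (b2.sub (b1.smul σ)).eq_zero n fun i hi hin => by
    rcases hn i hi hin with h | ⟨rfl | rfl, t, ht, h⟩ | ⟨rfl, h⟩
    · simp [h, b3 i hi h]
    · simp [h, hα φ ψ b1 b2 b3 b4 t ht h, rα t ht]
    · simp [h, hβ φ ψ b1 b2 b3 b4 t ht h, rβ t ht]
    · simp [h, hγ φ ψ b1 b2 b4 h]; ring
  have h5 := b4 e b5
  rw [sub_eq_zero.1 h4, smul_dotProduct, b5] at h5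
  exact h5.symm

end Pool.Agent.MP_d99b12_co.H81
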